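import Pool.Agent.X170.PN.FS

/-!
# Equicontinuity does not propagate from a Hartogs figure to the polydisk

Points of `ℂ^{n+1}` are written `(z, w)` with `z ∈ ℂ^n` and `w ∈ ℂ`. The definitions of a smooth
Hermitian metric on a complex manifold (`HermitianMetric`) and of the Kähler condition `dω = 0`
(`IsKahler`) are those of `Pool.Agent.W549.CYDefs` and `Pool.Agent.TH598.KG.Stmt`.
-/

set_option autoImplicit false

open Set Topology Manifold Filter
open scoped ContDiff

namespace Pool.Agent.Results.MP_7ec995_an.HartogsFails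

open Pool.Agent.W549.CY (Cn HermitianMetric)
open Pool.Agent.TH598 (IsKahler)
open Pool.Agent.X170.PN

/-- The unit polydisk `Δ^{n+1}` of `ℂ^n × ℂ`. -/
def polydisk (n : ℕ) : Set ((Fin n → ℂ) × ℂ) := {p | (∀ i, ‖p.1 i‖ < 1) ∧ ‖p.2‖ < 1}

/-- The Hartogs figure `H_n^1(r) = (Δ^n(1 - r) × Δ) ∪ (Δ^n × {r < |w| < 1})`. -/
def hartogs (n : ℕ) (r : ℝ) : Set ((Fin n → ℂ) × ℂ) :=
  {p | (∀ i, ‖p.1 i‖ < 1 - r) ∧ ‖p.2‖ < 1} ∪ {p | (∀ i, ‖p.1 i‖ < 1) ∧ r < ‖p.2‖ ∧ ‖p.2‖ < 1}

/-- `d` is a distance on `X` which defines the topology of `X`. (The distance induced by a Hermitian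
metric on a connected complex manifold `X` is such a distance.) -/
structure IsDistance {X : Type} [TopologicalSpace X] (d : X → X → ℝ) : Prop where
  eq_zero_iff : ∀ x y, d x y = 0 ↔ x = y
  symm : ∀ x y, d x y = d y x
  triangle : ∀ x y z, d x z ≤ d x y + d y z
  isOpen_iff : ∀ s : Set X, IsOpen s ↔ ∀ x ∈ s, ∃ ε > 0, ∀ y, d x y < ε → y ∈ s

/-- The family `F` of maps from (a part of) `ℂ^n × ℂ` to `X` is equicontinuous on the set `U`, with
respect to the distance `d` of `X`. -/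
def IsEquicontinuousOn {n : ℕ} {X : Type} (d : X → X → ℝ) (F : Set ((Fin n → ℂ) × ℂ → X))
    (U : Set ((Fin n → ℂ) × ℂ)) : Prop :=
  ∀ p ∈ U, ∀ ε > 0, ∃ δ > 0, ∀ f ∈ F, ∀ z ∈ U, dist z p < δ → d (f z) (f p) < ε

/-! ### Proof -/

theorem IsDistance.nonneg {X : Type} [TopologicalSpace X] {d : X → X → ℝ} (hd : IsDistance d)
    (x y : X) : 0 ≤ d x y := by
  have h1 := hd.triangle x y x
  rw [hd.symm y x, (hd.eq_zero_iff x x).2 rfl] at h1
  linarith

theorem IsDistance.ball {X : Type} [TopologicalSpace X] {d : X → X → ℝ} (hd : IsDistance d)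
    (x : X) {ε : ℝ} (hε : 0 < ε) : {y | d x y < ε} ∈ 𝓝 x := by
  refine IsOpen.mem_nhds ((hd.isOpen_iff _).2 fun y hy => ?_) ?_
  · refine ⟨ε - d x y, sub_pos.2 hy, fun z hz => ?_⟩
    have := hd.triangle x y z
    show d x z < ε
    linarith
  · show d x x < ε
    rwa [(hd.eq_zero_iff x x).2 rfl]

/-- the point `[u : w : c]`, where `(u, w, c) ≠ 0` -/
noncomputable def Phi (q : (ℂ × ℂ) × ℂ) : PSpace 2 :=
  if h : (![q.1.1, q.1.2, q.2] : Fin 3 → ℂ) ≠ 0 then pt ⟨_, h⟩ else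
    pt ⟨![1, 0, 0], fun h => one_ne_zero (congrFun h 0)⟩

theorem Phi_cont {q : (ℂ × ℂ) × ℂ} (hq : q ≠ 0) : ContinuousAt Phi q := by
  have hiff : ∀ q : (ℂ × ℂ) × ℂ, q ≠ 0 ↔ (![q.1.1, q.1.2, q.2] : Fin 3 → ℂ) ≠ 0 := by
    intro q
    rw [not_iff_not]
    constructor
    · rintro rfl
      funext i
      fin_cases i <;> rfl
    · intro h
      have h0 := congrFun h 0
      have h1 := congrFun h 1
      have h2 := congrFun h 2
      simp at h0 h1 h2
      exact Prod.ext (Prod.ext h0 h1) h2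
  have hc : Continuous fun q : (ℂ × ℂ) × ℂ => (![q.1.1, q.1.2, q.2] : Fin 3 → ℂ) := by
    refine continuous_pi fun i => ?_
    fin_cases i
    · exact continuous_fst.comp continuous_fst
    · exact continuous_snd.comp continuous_fst
    · exact continuous_snd
  have ho : IsOpen {q : (ℂ × ℂ) × ℂ | q ≠ 0} := isOpen_ne
  have hon : ContinuousOn Phi {q : (ℂ × ℂ) × ℂ | q ≠ 0} := by
    rw [continuousOn_iff_continuous_domRestrict]
    have e : Set.domRestrict {q : (ℂ × ℂ) × ℂ | q ≠ 0} Phi = fun q =>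
        pt ⟨![q.1.1.1, q.1.1.2, q.1.2], (hiff q.1).1 q.2⟩ := by
      funext q
      show Phi q.1 = _
      unfold Phi
      rw [dif_pos ((hiff q.1).1 q.2)]
    rw [e]
    exact pt_cont.comp (Continuous.subtype_mk (hc.comp continuous_subtype_val) _)
  exact hon.continuousAt (ho.mem_nhds hq)

/-- the maps `(z, w) ↦ [z_1 - a : w : 1 / (k + 1)]` -/
noncomputable def fk {n : ℕ} (i : Fin n) (a : ℂ) (k : ℕ) (p : (Fin n → ℂ) × ℂ) : PSpace 2 :=
  cinv 2 ![(p.1 i - a) * (k + 1), p.2 * (k + 1)]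

theorem fk_eq {n : ℕ} (i : Fin n) (a : ℂ) (k : ℕ) (p : (Fin n → ℂ) × ℂ) :
    fk i a k p = Phi ((p.1 i - a, p.2), ((k : ℂ) + 1)⁻¹) := by
  have hk : (k : ℂ) + 1 ≠ 0 := by exact_mod_cast Nat.succ_ne_zero k
  unfold fk Phi cinv
  rw [dif_pos (fun h => inv_ne_zero hk (congrFun h 2))]
  refine (pt_eq_iff _ _).2 ⟨(k : ℂ) + 1, hk, fun j => ?_⟩
  fin_cases j
  · show (Fin.insertNth 2 (1 : ℂ) ![(p.1 i - a) * (k + 1), p.2 * (k + 1)] : Fin 3 → ℂ)
      (Fin.succAbove 2 0) = _
    rw [Fin.insertNth_apply_succAbove]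
    simp
    ring
  · show (Fin.insertNth 2 (1 : ℂ) ![(p.1 i - a) * (k + 1), p.2 * (k + 1)] : Fin 3 → ℂ)
      (Fin.succAbove 2 1) = _
    rw [Fin.insertNth_apply_succAbove]
    simp
    ring
  · show (Fin.insertNth 2 (1 : ℂ) ![(p.1 i - a) * (k + 1), p.2 * (k + 1)] : Fin 3 → ℂ) 2 = _
    rw [Fin.insertNth_apply_same]
    simp [hk]

theorem fk_holo {n : ℕ} (i : Fin n) (a : ℂ) (k : ℕ) :
    ContMDiff 𝓘(ℂ, (Fin n → ℂ) × ℂ) 𝓘(ℂ, Cn 2) ω (fk i a k) := by
  have h1 : ContMDiffOn 𝓘(ℂ, Cn 2) 𝓘(ℂ, Cn 2) ω (chart (n := 2) 2).symm (chart (n := 2) 2).target :=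
    contMDiffOn_symm_of_mem_maximalAtlas (IsManifold.subset_maximalAtlas (mem_range_self 2))
  have h2 : ContMDiff 𝓘(ℂ, (Fin n → ℂ) × ℂ) 𝓘(ℂ, Cn 2) ω
      (fun p : (Fin n → ℂ) × ℂ => (![(p.1 i - a) * (k + 1), p.2 * (k + 1)] : Cn 2)) := by
    refine ContDiff.contMDiff ?_
    rw [contDiff_pi]
    intro j
    have hz : ContDiff ℂ ω (fun p : (Fin n → ℂ) × ℂ => p.1 i) :=
      (ContinuousLinearMap.proj (R := ℂ) (φ := fun _ : Fin n => ℂ) i).contDiff.comp contDiff_fst
    fin_cases j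
    · exact (hz.sub contDiff_const).mul contDiff_const
    · exact contDiff_snd.mul contDiff_const
  have h3 : fk i a k = (chart (n := 2) 2).symm ∘
      fun p : (Fin n → ℂ) × ℂ => (![(p.1 i - a) * (k + 1), p.2 * (k + 1)] : Cn 2) := rfl
  rw [h3]
  exact fun p => (h1.contMDiffAt (by exact univ_mem)).comp p h2.contMDiffAt

/-- **A negative answer to both questions.** There is a compact connected Kähler surface `X` with the
following property. For every `n ≥ 1` and every `0 < r < 1` there is a sequence `(f_k)` of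
holomorphic maps `ℂ^{n+1} → X` (in particular, by restriction, a family of holomorphic maps
`Δ^{n+1} → X`) which, with respect to every distance defining the topology of `X`, is
equicontinuous on the Hartogs figure `H_n^1(r)` and is not equicontinuous on `Δ^{n+1}`. -/
theorem result :
    ∃ (X : Type) (_ : TopologicalSpace X) (_ : T2Space X) (_ : CompactSpace X)
      (_ : ConnectedSpace X) (_ : ChartedSpace (Cn 2) X) (_ : IsManifold 𝓘(ℂ, Cn 2) ω X),
      (∃ h : HermitianMetric 2 X, IsKahler h) ∧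
      ∀ (n : ℕ) (r : ℝ), 1 ≤ n → 0 < r → r < 1 →
        ∃ f : ℕ → (Fin n → ℂ) × ℂ → X,
          (∀ k, ContMDiff 𝓘(ℂ, (Fin n → ℂ) × ℂ) 𝓘(ℂ, Cn 2) ω (f k)) ∧
          ∀ d : X → X → ℝ, IsDistance d →
            IsEquicontinuousOn d (range f) (hartogs n r) ∧
            ¬ IsEquicontinuousOn d (range f) (polydisk n) := by
  refine ⟨PSpace 2, inferInstance, inferInstance, inferInstance, connected (by norm_num),
    inferInstance, inferInstance, ⟨fubiniStudy 2, fubiniStudy_isKahler 2⟩,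
    fun n r hn hr hr1 => ?_⟩
  set i : Fin n := ⟨0, hn⟩ with hi
  set a : ℂ := ((1 - r : ℝ) : ℂ) with ha
  have hna : ‖a‖ = 1 - r := by rw [ha, Complex.norm_real, Real.norm_of_nonneg (by linarith)]
  refine ⟨fk i a, fk_holo i a, fun d hd => ⟨?_, ?_⟩⟩
  · intro p hp ε hε
    have hp0 : (p.1 i - a, p.2) ≠ ((0 : ℂ), (0 : ℂ)) := by
      intro h
      have h1 : p.1 i = a := sub_eq_zero.1 (Prod.mk.inj h).1
      have h2 : p.2 = 0 := (Prod.mk.inj h).2
      rcases hp with hp | hp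
      · have := hp.1 i
        rw [h1, hna] at this
        exact lt_irrefl _ this
      · have := hp.2.1
        rw [h2, norm_zero] at this
        linarith
    have hA : Continuous fun q : ((Fin n → ℂ) × ℂ) × ℂ => ((q.1.1 i - a, q.1.2), q.2) :=
      ((((continuous_apply i).comp (continuous_fst.comp continuous_fst)).sub
        continuous_const).prodMk (continuous_snd.comp continuous_fst)).prodMk continuous_snd
    have key : ∀ c ∈ Metric.closedBall (0 : ℂ) 1,
        ∀ᶠ q : ((Fin n → ℂ) × ℂ) × ℂ in 𝓝 p ×ˢ 𝓝 c,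
          d (Phi ((q.1.1 i - a, q.1.2), q.2)) (Phi ((p.1 i - a, p.2), q.2)) < ε := by
      intro c _
      have hne : ((p.1 i - a, p.2), c) ≠ 0 := fun h => hp0 (Prod.mk.inj h).1
      have hΦ := Phi_cont hne
      have hB := hd.ball (Phi ((p.1 i - a, p.2), c)) (half_pos hε)
      have h1 : ∀ᶠ q : ((Fin n → ℂ) × ℂ) × ℂ in 𝓝 (p, c),
          d (Phi ((p.1 i - a, p.2), c)) (Phi ((q.1.1 i - a, q.1.2), q.2)) < ε / 2 := by
        have hcomp : ContinuousAt (fun q : ((Fin n → ℂ) × ℂ) × ℂ =>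
            Phi ((q.1.1 i - a, q.1.2), q.2)) (p, c) :=
          ContinuousAt.comp (f := fun q : ((Fin n → ℂ) × ℂ) × ℂ => ((q.1.1 i - a, q.1.2), q.2))
            (g := Phi) hΦ hA.continuousAt
        exact hcomp.eventually hB
      have h2 : ∀ᶠ q : ((Fin n → ℂ) × ℂ) × ℂ in 𝓝 (p, c),
          d (Phi ((p.1 i - a, p.2), c)) (Phi ((p.1 i - a, p.2), q.2)) < ε / 2 := by
        have hA' : Continuous fun q : ((Fin n → ℂ) × ℂ) × ℂ => ((p.1 i - a, p.2), q.2) :=
          continuous_const.prodMk continuous_snd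
        have hcomp : ContinuousAt (fun q : ((Fin n → ℂ) × ℂ) × ℂ =>
            Phi ((p.1 i - a, p.2), q.2)) (p, c) :=
          ContinuousAt.comp (f := fun q : ((Fin n → ℂ) × ℂ) × ℂ => ((p.1 i - a, p.2), q.2))
            (g := Phi) hΦ hA'.continuousAt
        exact hcomp.eventually hB
      rw [← nhds_prod_eq]
      filter_upwards [h1, h2] with q hq1 hq2
      refine (hd.triangle _ (Phi ((p.1 i - a, p.2), c)) _).trans_lt ?_
      rw [hd.symm]
      linarith
    have h3 : ∀ᶠ z : (Fin n → ℂ) × ℂ in 𝓝 p, ∀ c ∈ Metric.closedBall (0 : ℂ) 1,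
        d (Phi ((z.1 i - a, z.2), c)) (Phi ((p.1 i - a, p.2), c)) < ε := by
      refine (isCompact_closedBall (0 : ℂ) 1).eventually_forall_of_forall_eventually fun c hc => ?_
      rw [nhds_prod_eq]
      exact key c hc
    obtain ⟨δ, hδ, h4⟩ := Metric.eventually_nhds_iff.1 h3
    refine ⟨δ, hδ, ?_⟩
    rintro _ ⟨k, rfl⟩ z - hz
    rw [fk_eq, fk_eq]
    refine h4 hz _ ?_
    rw [mem_closedBall_zero_iff, norm_inv]
    have : (1 : ℝ) ≤ ‖(k : ℂ) + 1‖ := by
      have e : ((k : ℂ) + 1) = ((k + 1 : ℕ) : ℂ) := by push_cast; rfl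
      rw [e, Complex.norm_natCast]
      exact_mod_cast Nat.le_add_left 1 k
    exact inv_le_one_of_one_le₀ this
  · intro H
    -- the point `(a, 0, …, 0)`
    set z0 : Fin n → ℂ := Function.update 0 i a with hz0
    have hp : ((z0, 0) : (Fin n → ℂ) × ℂ) ∈ polydisk n := by
      refine ⟨fun j => ?_, by simp⟩
      by_cases hj : j = i
      · rw [hj, hz0]
        simp only [Function.update_self]
        rw [hna]; linarith
      · rw [hz0]
        simp [hj]
    set A : PSpace 2 := Phi ((0, 0), 1) with hA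
    set B : PSpace 2 := Phi ((1, 0), 0) with hB
    have hAB : B ≠ A := by
      rw [hA, hB]
      unfold Phi
      rw [dif_pos (fun h => one_ne_zero (congrFun h 0)), dif_pos (fun h => one_ne_zero (congrFun h 2))]
      intro h
      have := (pt_eq_iff' _ _).1 h 0 2
      simp at this
    have hpos : 0 < d B A := lt_of_le_of_ne (hd.nonneg _ _)
      fun h => hAB ((hd.eq_zero_iff _ _).1 h.symm)
    obtain ⟨δ, hδ, h1⟩ := H _ hp _ (half_pos hpos)
    -- a point near `(a, 0, …, 0)` on the first axis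
    obtain ⟨t, ht0, ht1, ht2⟩ : ∃ t : ℝ, 0 < t ∧ t < δ ∧ t < r := by
      refine ⟨min δ r / 2, ?_, ?_, ?_⟩
      · have := lt_min hδ hr; linarith
      · have h5 := lt_min hδ hr; have h6 := min_le_left δ r; linarith
      · have h5 := lt_min hδ hr; have h6 := min_le_right δ r; linarith
    set z1 : Fin n → ℂ := Function.update 0 i (a + (t : ℂ)) with hz1
    have hq : ((z1, 0) : (Fin n → ℂ) × ℂ) ∈ polydisk n := by
      refine ⟨fun j => ?_, by simp⟩
      by_cases hj : j = i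
      · rw [hj, hz1]
        simp only [Function.update_self]
        refine (norm_add_le _ _).trans_lt ?_
        rw [hna, Complex.norm_real, Real.norm_of_nonneg ht0.le]; linarith
      · rw [hz1]
        simp [hj]
    have hdist : dist ((z1, 0) : (Fin n → ℂ) × ℂ) (z0, 0) < δ := by
      rw [Prod.dist_eq, dist_self, max_eq_left dist_nonneg, dist_pi_lt_iff hδ]
      intro j
      by_cases hj : j = i
      · rw [hj, hz1, hz0]
        simp only [Function.update_self]
        rw [dist_eq_norm, add_sub_cancel_left, Complex.norm_real, Real.norm_of_nonneg ht0.le]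
        exact ht1
      · rw [hz1, hz0]
        simpa [hj] using hδ
    have h2 : ∀ k : ℕ, d (Phi (((t : ℂ), 0), ((k : ℂ) + 1)⁻¹)) A < d B A / 2 := by
      intro k
      have h3 := h1 _ (mem_range_self k) _ hq hdist
      have hk : (k : ℂ) + 1 ≠ 0 := by exact_mod_cast Nat.succ_ne_zero k
      have e0 : fk i a k (z0, 0) = A := by
        rw [fk_eq, hA]
        have e : z0 i - a = 0 := by rw [hz0]; simp
        rw [show ((z0, (0 : ℂ)).1 i - a) = 0 from e]
        unfold Phi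
        rw [dif_pos (fun h => inv_ne_zero hk (congrFun h 2)),
          dif_pos (fun h => one_ne_zero (congrFun h 2))]
        refine (pt_eq_iff _ _).2 ⟨((k : ℂ) + 1)⁻¹, inv_ne_zero hk, fun j => ?_⟩
        fin_cases j <;> simp
      have e1 : fk i a k (z1, 0) = Phi (((t : ℂ), 0), ((k : ℂ) + 1)⁻¹) := by
        rw [fk_eq]
        have e : z1 i - a = t := by rw [hz1]; simp
        rw [show ((z1, (0 : ℂ)).1 i - a) = (t : ℂ) from e]
      rwa [e0, e1] at h3
    -- the limit `k → ∞`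
    have htc : (t : ℂ) ≠ 0 := by exact_mod_cast ht0.ne'
    have eB : B = Phi (((t : ℂ), 0), 0) := by
      rw [hB]
      unfold Phi
      have n1 : (![((1, 0), 0).1.1, ((1, 0), 0).1.2, ((1, 0), 0).2] : Fin 3 → ℂ) ≠ 0 :=
        fun h => one_ne_zero (congrFun h 0)
      have n2 : (![(((t : ℂ), 0), 0).1.1, (((t : ℂ), 0), 0).1.2, (((t : ℂ), 0), 0).2] :
          Fin 3 → ℂ) ≠ 0 := fun h => htc (congrFun h 0)
      rw [dif_pos n1, dif_pos n2]
      refine (pt_eq_iff _ _).2 ⟨(t : ℂ)⁻¹, inv_ne_zero htc, fun j => ?_⟩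
      fin_cases j <;> simp [htc]
    have hlim : Tendsto (fun k : ℕ => Phi (((t : ℂ), 0), ((k : ℂ) + 1)⁻¹)) atTop (𝓝 B) := by
      rw [eB]
      have hne : (((t : ℂ), (0 : ℂ)), (0 : ℂ)) ≠ 0 := fun h => htc (Prod.mk.inj (Prod.mk.inj h).1).1
      refine (Phi_cont hne).tendsto.comp ?_
      refine Tendsto.prodMk_nhds tendsto_const_nhds ?_
      have h4 : Tendsto (fun k : ℕ => (1 : ℂ) / ((k : ℂ) + 1)) atTop (𝓝 0) :=
        tendsto_one_div_add_atTop_nhds_zero_nat
      simpa only [one_div] using h4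
    have h5 := hlim.eventually (hd.ball B (half_pos hpos))
    obtain ⟨k, hk⟩ := h5.exists
    have h6 := hd.triangle B (Phi (((t : ℂ), 0), ((k : ℂ) + 1)⁻¹)) A
    have h7 := h2 k
    have h8 : d B (Phi (((t : ℂ), 0), ((k : ℂ) + 1)⁻¹)) < d B A / 2 := hk
    linarith

end Pool.Agent.Results.MP_7ec995_an.HartogsFails
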